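import Pool.Agent.H85.AL.Bs

set_option autoImplicit false

/-!
Pure group theory: in a finite group without soluble normal subgroups and without two commuting
normal subgroups, a normal subgroup whose elements carry the odd elements inverted by an involution
`z` to elements inverted by `z` is trivial.
-/

namespace Pool.Agent.H61.FT

open Subgroup

variable {M : Type*} [Group M]

/-- two involutions whose product has 2-power order generate a 2-group -/
theorem dihedral2 {x y : M} (hx : x * x = 1) (hy : y * y = 1) {k : ℕ}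
    (hxy : (x * y) ^ (2 ^ k) = 1) : IsPGroup 2 (closure ({x, y} : Set M)) := by
  have hx' : x⁻¹ = x := by rw [inv_eq_iff_mul_eq_one, hx]
  have hy' : y⁻¹ = y := by rw [inv_eq_iff_mul_eq_one, hy]
  have hinv : (x * y)⁻¹ = y * x := by rw [mul_inv_rev, hx', hy']
  have hcx : x * (x * y) * x⁻¹ = (x * y)⁻¹ := by
    rw [hinv, hx', ← mul_assoc, hx, one_mul]
  have hform : ∀ g ∈ closure ({x, y} : Set M),
      (∃ i : ℤ, g = (x * y) ^ i) ∨ (∃ i : ℤ, g = (x * y) ^ i * x) := by
    have hcxz : ∀ i : ℤ, x * (x * y) ^ i = (x * y) ^ (-i) * x := by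
      intro i
      have h1 : x * (x * y) ^ i * x⁻¹ = (x * y) ^ (-i) := by
        rw [← conj_zpow, hcx, inv_zpow, zpow_neg]
      rw [← h1]; group
    intro g hg
    induction hg using Subgroup.closure_induction with
    | mem g hg =>
      rcases hg with rfl | hg
      · right; exact ⟨0, by simp⟩
      · right
        rw [Set.mem_singleton_iff] at hg
        refine ⟨-1, ?_⟩
        rw [zpow_neg, zpow_one, hinv, mul_assoc, hx, mul_one, hg]
    | one => left; exact ⟨0, by simp⟩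
    | mul g h _ _ ihg ihh =>
      rcases ihg with ⟨i, rfl⟩ | ⟨i, rfl⟩
      · rcases ihh with ⟨j, rfl⟩ | ⟨j, rfl⟩
        · left; exact ⟨i + j, by rw [zpow_add]⟩
        · right; exact ⟨i + j, by rw [zpow_add, mul_assoc]⟩
      · rcases ihh with ⟨j, rfl⟩ | ⟨j, rfl⟩
        · right; exact ⟨i + -j, by rw [zpow_add, mul_assoc, hcxz, mul_assoc]⟩
        · left
          refine ⟨i + -j, ?_⟩
          rw [zpow_add, mul_assoc, ← mul_assoc x, hcxz, mul_assoc, hx, mul_one]
    | inv g _ ihg =>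
      rcases ihg with ⟨i, rfl⟩ | ⟨i, rfl⟩
      · left; exact ⟨-i, by rw [zpow_neg]⟩
      · right
        refine ⟨i, ?_⟩
        rw [mul_inv_rev, hx', ← zpow_neg, hcxz, neg_neg]
  rintro ⟨g, hg⟩
  rcases hform g hg with ⟨i, hi⟩ | ⟨i, hi⟩
  · refine ⟨k, ?_⟩
    apply Subtype.ext
    simp only [SubmonoidClass.coe_pow, OneMemClass.coe_one]
    rw [hi, ← zpow_natCast, zpow_comm, zpow_natCast, hxy, one_zpow]
  · refine ⟨1, ?_⟩
    apply Subtype.ext
    simp only [SubmonoidClass.coe_pow, OneMemClass.coe_one, pow_one]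
    rw [hi, pow_two]
    have h1 : x * (x * y) ^ i * x⁻¹ = (x * y) ^ (-i) := by
      rw [← conj_zpow, hcx, inv_zpow, zpow_neg]
    calc (x * y) ^ i * x * ((x * y) ^ i * x) = (x * y) ^ i * (x * (x * y) ^ i * x⁻¹) * (x * x) := by
          group
      _ = 1 := by rw [h1, hx, mul_one, ← zpow_add, add_neg_cancel, zpow_zero]

/-- Lemma (L) -/
theorem lemL [Finite M]
    (hsolv : ∀ A : Subgroup M, A.Normal → Group.IsSolvable A → A = ⊥)
    {Λ : Subgroup M} (hΛ : Λ.Normal) {p : ℕ} [Fact p.Prime] (P : Subgroup M) (hP : IsPGroup p P)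
    (hPΛ : P ≤ Λ) (hn : ∀ g ∈ Λ, ∀ a ∈ P, g * a * g⁻¹ ∈ P) : P = ⊥ := by
  classical
  set D : Set M := {x | ∃ g : M, ∃ a ∈ P, x = g * a * g⁻¹} with hD
  have hDc : ∀ g, ∀ x ∈ D, g * x * g⁻¹ ∈ D := by
    rintro g _ ⟨h, a, ha, rfl⟩
    exact ⟨g * h, a, ha, by group⟩
  have hPg : ∀ g : M, ∀ m ∈ Λ, ∀ a ∈ P.map (MulAut.conj g).toMonoidHom,
      m * a * m⁻¹ ∈ P.map (MulAut.conj g).toMonoidHom := by
    rintro g m hm _ ⟨a, ha, rfl⟩
    refine ⟨(g⁻¹ * m * g) * a * (g⁻¹ * m * g)⁻¹, hn _ ?_ a ha, ?_⟩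
    · have := hΛ.conj_mem m hm g⁻¹
      simpa using this
    · simp only [MulEquiv.coe_toMonoidHom, MulAut.conj_apply]
      group
  have hPgΛ : ∀ g : M, P.map (MulAut.conj g).toMonoidHom ≤ Λ := by
    rintro g _ ⟨a, ha, rfl⟩
    simp only [MulEquiv.coe_toMonoidHom, MulAut.conj_apply]
    exact hΛ.conj_mem a (hPΛ ha) g
  have h2 : ∀ x ∈ D, ∀ y ∈ D, IsPGroup p (closure ({x, y} : Set M)) := by
    rintro x ⟨g, a, ha, rfl⟩ y ⟨h, b, hb, rfl⟩
    have hg : IsPGroup p (P.map (MulAut.conj g).toMonoidHom) := hP.map _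
    have hh : IsPGroup p (P.map (MulAut.conj h).toMonoidHom) := hP.map _
    have hsup : IsPGroup p (P.map (MulAut.conj g).toMonoidHom ⊔
        P.map (MulAut.conj h).toMonoidHom : Subgroup M) := by
      apply hg.to_sup_of_normal_right' hh
      intro m hm
      rw [mem_normalizer_iff]
      intro t
      constructor
      · intro ht
        exact hPg h m (hPgΛ g hm) t ht
      · intro ht
        have := hPg h m⁻¹ (Λ.inv_mem (hPgΛ g hm)) _ ht
        have h3 : m⁻¹ * (m * t * m⁻¹) * m⁻¹⁻¹ = t := by group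
        rw [h3] at this
        exact this
    refine hsup.to_le ?_
    rw [closure_le]
    rintro t (rfl | ht)
    · exact mem_sup_left ⟨a, ha, by simp⟩
    · rw [Set.mem_singleton_iff] at ht
      subst ht
      exact mem_sup_right ⟨b, hb, by simp⟩
  have h3 := Pool.Agent.H85.AL.baerSuzuki D hDc h2
  have h4 : (closure D).Normal := by
    refine ⟨fun n hn g => ?_⟩
    have h5 : closure D ≤ (closure D).comap (MulAut.conj g).toMonoidHom := by
      rw [closure_le]
      intro x hx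
      exact subset_closure (hDc g x hx)
    exact h5 hn
  have h5 : Group.IsNilpotent (closure D) := h3.isNilpotent
  have h6 := hsolv _ h4 inferInstance
  rw [eq_bot_iff]
  intro a ha
  rw [← h6]
  exact subset_closure ⟨1, a, ha, by simp⟩

/-- the core -/
theorem core [Finite M]
    (hsolv : ∀ A : Subgroup M, A.Normal → Group.IsSolvable A → A = ⊥)
    (hcom : ∀ A B : Subgroup M, A.Normal → B.Normal → (∀ a ∈ A, ∀ b ∈ B, a * b = b * a) →
      A = ⊥ ∨ B = ⊥)
    (Λ : Subgroup M) (hΛ : Λ.Normal) {z : M} (hz : z * z = 1) (hz1 : z ≠ 1)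
    (hK : ∀ n ∈ Λ, ∀ b, Odd (orderOf b) → z * b * z = b⁻¹ →
      z * (n⁻¹ * b * n) * z = (n⁻¹ * b * n)⁻¹) : Λ = ⊥ := by
  classical
  have hz' : z⁻¹ = z := by rw [inv_eq_iff_mul_eq_one, hz]
  -- the elements `y n`
  set y : M → M := fun n => z * (n * z * n⁻¹) with hy
  have hyΛ : ∀ n ∈ Λ, y n ∈ Λ := by
    intro n hn
    have h1 := hΛ.conj_mem n hn z
    have h2 := Λ.mul_mem h1 (Λ.inv_mem hn)
    rw [hz'] at h2
    have h3 : y n = z * n * z * n⁻¹ := by simp only [hy, mul_assoc]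
    rw [h3]; exact h2
  have hyK : ∀ n ∈ Λ, ∀ b, Odd (orderOf b) → z * b * z = b⁻¹ → Commute (y n) b := by
    intro n hn b hb hzb
    have h1 := hK n hn b hb hzb
    have h2 : (n * z * n⁻¹) * b * (n * z * n⁻¹) = b⁻¹ := by
      have : (n * z * n⁻¹) * b * (n * z * n⁻¹) = n * (z * (n⁻¹ * b * n) * z) * n⁻¹ := by group
      rw [this, h1]; group
    have h3 : z * b⁻¹ * z = b := by
      have : z * b⁻¹ * z = (z⁻¹ * b * z⁻¹)⁻¹ := by group
      rw [this, hz', hzb, inv_inv]
    have h4 : (n * z * n⁻¹) * (n * z * n⁻¹) = 1 := by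
      have : (n * z * n⁻¹) * (n * z * n⁻¹) = n * (z * z) * n⁻¹ := by group
      rw [this, hz]; group
    have h5 : (n * z * n⁻¹) * b = b⁻¹ * (n * z * n⁻¹) := by
      rw [← h2, mul_assoc _ (n * z * n⁻¹) (n * z * n⁻¹), h4, mul_one]
    have h6 : z * b⁻¹ = b * z := by
      calc z * b⁻¹ = z * b⁻¹ * (z * z) := by rw [hz, mul_one]
        _ = z * b⁻¹ * z * z := by simp only [mul_assoc]
        _ = b * z := by rw [h3]
    change z * (n * z * n⁻¹) * b = b * (z * (n * z * n⁻¹))
    rw [mul_assoc, h5, ← mul_assoc, h6, mul_assoc]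
  have hyinv : ∀ n, z * y n * z = (y n)⁻¹ := by
    intro n
    have h1 : (y n)⁻¹ = n * z⁻¹ * n⁻¹ * z⁻¹ := by simp only [hy]; group
    rw [h1, hz']
    simp only [hy]
    rw [← mul_assoc, hz, one_mul]
  set F : Subgroup M := closure {t | ∃ n ∈ Λ, t = y n} with hF
  have hyF : ∀ n ∈ Λ, y n ∈ F := fun n hn => subset_closure ⟨n, hn, rfl⟩
  have hFΛ : F ≤ Λ := by
    rw [hF, closure_le]
    rintro _ ⟨n, hn, rfl⟩
    exact hyΛ n hn
  have hFn : ∀ g ∈ Λ, ∀ a ∈ F, g * a * g⁻¹ ∈ F := by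
    intro g hg
    have h5 : F ≤ F.comap (MulAut.conj g).toMonoidHom := by
      conv_lhs => rw [hF]
      rw [closure_le]
      rintro _ ⟨n, hn, rfl⟩
      have h6 : g * y n * g⁻¹ = (y g)⁻¹ * y (g * n) := by
        simp only [hy]
        have : (z * (g * z * g⁻¹))⁻¹ * (z * (g * n * z * (g * n)⁻¹)) =
          g * z⁻¹ * n * z * n⁻¹ * g⁻¹ := by group
        rw [this, hz']
        simp only [mul_assoc]
      have h7 : g * y n * g⁻¹ ∈ F := by
        rw [h6]
        exact F.mul_mem (F.inv_mem (hyF g hg)) (hyF _ (Λ.mul_mem hg hn))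
      exact h7
    intro a ha
    exact h5 ha
  -- the odd elements of `F` inverted by `z` are trivial
  have hodd : ∀ b ∈ F, Odd (orderOf b) → z * b * z = b⁻¹ → b = 1 := by
    intro b hbF hbo hzb
    by_contra hb1
    have hn1 : orderOf b ≠ 1 := by
      rw [Ne, orderOf_eq_one_iff]; exact hb1
    obtain ⟨p, hp, hpd⟩ := Nat.exists_prime_and_dvd hn1
    have : Fact p.Prime := ⟨hp⟩
    have hcen : ∀ t ∈ F, Commute t b := by
      intro t ht
      rw [hF] at ht
      induction ht using Subgroup.closure_induction with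
      | mem t ht =>
        obtain ⟨n, hn, rfl⟩ := ht
        exact hyK n hn b hbo hzb
      | one => exact Commute.one_left b
      | mul s t _ _ hs ht => exact hs.mul_left ht
      | inv t _ ht => exact ht.inv_left
    -- the subgroup `C`
    set C : Subgroup M :=
      { carrier := {c | c ∈ F ∧ (∀ t ∈ F, Commute t c) ∧ c ^ p = 1}
        mul_mem' := by
          rintro a c ⟨ha, ha1, ha2⟩ ⟨hc, hc1, hc2⟩
          refine ⟨F.mul_mem ha hc, fun t ht => (ha1 t ht).mul_right (hc1 t ht), ?_⟩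
          rw [(hc1 a ha).mul_pow, ha2, hc2, one_mul]
        one_mem' := ⟨F.one_mem, fun t _ => Commute.one_right t, one_pow p⟩
        inv_mem' := by
          rintro a ⟨ha, ha1, ha2⟩
          refine ⟨F.inv_mem ha, fun t ht => (ha1 t ht).inv_right, ?_⟩
          rw [inv_pow, ha2, inv_one] } with hC
    have hCp : IsPGroup p C := by
      rintro ⟨c, hc⟩
      refine ⟨1, ?_⟩
      apply Subtype.ext
      simp only [SubmonoidClass.coe_pow, OneMemClass.coe_one, pow_one]
      exact hc.2.2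
    have hCn : ∀ g ∈ Λ, ∀ a ∈ C, g * a * g⁻¹ ∈ C := by
      rintro g hg a ⟨ha, ha1, ha2⟩
      refine ⟨hFn g hg a ha, ?_, ?_⟩
      · intro t ht
        have h8 := ha1 _ (hFn g⁻¹ (Λ.inv_mem hg) t ht)
        have h9 : g * ((g⁻¹ * t * g⁻¹⁻¹) * a) * g⁻¹ = g * (a * (g⁻¹ * t * g⁻¹⁻¹)) * g⁻¹ := by
          rw [h8.eq]
        change t * (g * a * g⁻¹) = (g * a * g⁻¹) * t
        calc t * (g * a * g⁻¹) = g * ((g⁻¹ * t * g⁻¹⁻¹) * a) * g⁻¹ := by group
          _ = _ := h9
          _ = (g * a * g⁻¹) * t := by group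
      · rw [conj_pow, ha2]; group
    have hCb := lemL hsolv hΛ C hCp (fun c hc => hFΛ hc.1) hCn
    obtain ⟨m, hm⟩ := hpd
    have hbm : b ^ m ∈ C := by
      refine ⟨F.pow_mem hbF m, fun t ht => (hcen t ht).pow_right m, ?_⟩
      rw [← pow_mul, mul_comm, ← hm, pow_orderOf_eq_one]
    rw [hCb, mem_bot] at hbm
    have h10 := orderOf_dvd_of_pow_eq_one hbm
    have hpos : 0 < orderOf b := orderOf_pos b
    have hmpos : 0 < m := by
      rcases Nat.eq_zero_or_pos m with h0 | h0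
      · rw [h0, mul_zero] at hm; omega
      · exact h0
    have h11 := Nat.le_of_dvd hmpos h10
    rw [hm] at h11
    have h12 := hp.two_le
    nlinarith
  -- the elements `y n` are 2-elements
  have hy2 : ∀ n ∈ Λ, ∃ k, (y n) ^ (2 ^ k) = 1 := by
    intro n hn
    have hpos : 0 < orderOf (y n) := orderOf_pos _
    obtain ⟨k, m, hm, hkm⟩ := Nat.exists_eq_two_pow_mul_odd hpos.ne'
    refine ⟨k, ?_⟩
    apply hodd _ (F.pow_mem (hyF n hn) _)
    · have h1 : orderOf ((y n) ^ (2 ^ k)) ∣ m := by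
        apply orderOf_dvd_of_pow_eq_one
        rw [← pow_mul, ← hkm, pow_orderOf_eq_one]
      exact Odd.of_dvd_nat hm h1
    · have h1 : (z * y n * z) ^ (2 ^ k) = ((y n)⁻¹) ^ (2 ^ k) := by rw [hyinv n]
      rw [← inv_pow, ← h1]
      have h2 : z * y n * z = z * y n * z⁻¹ := by rw [hz']
      rw [h2, conj_pow, hz']
  -- `F` is a 2-group
  have hF2 : IsPGroup 2 F := by
    set T : Subgroup M := Λ ⊔ zpowers z with hT
    have hΛT : Λ ≤ T := le_sup_left
    have hzT : z ∈ T := mem_sup_right (mem_zpowers z)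
    have hTform : ∀ t ∈ T, ∀ n ∈ Λ, ∃ m ∈ Λ, t * (n * z * n⁻¹) * t⁻¹ = m * z * m⁻¹ := by
      intro t ht
      have := hΛ
      rw [hT, ← SetLike.mem_coe, Subgroup.normal_mul] at ht
      obtain ⟨l, hl, w, hw, rfl⟩ := ht
      obtain ⟨i, rfl⟩ := mem_zpowers_iff.1 hw
      intro n hn
      refine ⟨l * (z ^ i * n * (z ^ i)⁻¹), Λ.mul_mem hl (hΛ.conj_mem n hn _), ?_⟩
      group
    set D : Set T := {t | ∃ n ∈ Λ, (t : M) = n * z * n⁻¹} with hD
    have hDc : ∀ g, ∀ x ∈ D, g * x * g⁻¹ ∈ D := by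
      rintro g x ⟨n, hn, hx⟩
      obtain ⟨m, hm, h1⟩ := hTform g g.2 n hn
      refine ⟨m, hm, ?_⟩
      push_cast
      rw [hx, h1]
    have hDp : ∀ x ∈ D, ∀ y ∈ D, IsPGroup 2 (closure ({x, y} : Set T)) := by
      rintro x ⟨n, hn, hx⟩ w ⟨m, hm, hw⟩
      have hsq : ∀ n : M, (n * z * n⁻¹) * (n * z * n⁻¹) = 1 := by
        intro n
        have : (n * z * n⁻¹) * (n * z * n⁻¹) = n * (z * z) * n⁻¹ := by group
        rw [this, hz]; group
      obtain ⟨k, hk⟩ := hy2 (n⁻¹ * m) (Λ.mul_mem (Λ.inv_mem hn) hm)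
      apply dihedral2 (k := k)
      · apply Subtype.ext
        push_cast
        rw [hx, hsq]
      · apply Subtype.ext
        push_cast
        rw [hw, hsq]
      · apply Subtype.ext
        push_cast
        have h1 : (x : M) * w = n * y (n⁻¹ * m) * n⁻¹ := by
          rw [hx, hw]
          simp only [hy]
          group
        rw [h1, conj_pow, hk]; group
    have h1 := Pool.Agent.H85.AL.baerSuzuki D hDc hDp
    have h2 : IsPGroup 2 ((closure D).map T.subtype) := h1.map _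
    refine h2.to_le ?_
    rw [hF, closure_le]
    rintro _ ⟨n, hn, rfl⟩
    have hnT : n * z * n⁻¹ ∈ T := T.mul_mem (T.mul_mem (hΛT hn) hzT) (T.inv_mem (hΛT hn))
    refine ⟨⟨z, hzT⟩ * ⟨n * z * n⁻¹, hnT⟩, (closure D).mul_mem (subset_closure ?_)
      (subset_closure ?_), rfl⟩
    · exact ⟨1, Λ.one_mem, by simp⟩
    · exact ⟨n, hn, rfl⟩
  have : Fact (Nat.Prime 2) := ⟨Nat.prime_two⟩
  have hFb := lemL hsolv hΛ F hF2 hFΛ hFn
  have hzc : ∀ n ∈ Λ, z * n = n * z := by
    intro n hn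
    have h1 := hyF n hn
    rw [hFb, mem_bot] at h1
    have h2 : z * (n * z * n⁻¹) = 1 := h1
    have h3 : z * (z * (n * z * n⁻¹)) = z := by rw [h2, mul_one]
    rw [← mul_assoc, hz, one_mul] at h3
    calc z * n = (n * z * n⁻¹) * n := by rw [h3]
      _ = n * z := by group
  have := hΛ
  rcases hcom Λ (centralizer (Λ : Set M)) hΛ inferInstance
    (fun a ha b hb => (mem_centralizer_iff.1 hb) a ha) with h | h
  · exact h
  · exfalso
    apply hz1
    have h1 : z ∈ centralizer (Λ : Set M) := by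
      rw [mem_centralizer_iff]
      intro n hn
      exact (hzc n hn).symm
    rw [h, mem_bot] at h1
    exact h1

end Pool.Agent.H61.FT
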