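import Pool.Agent.H61.FT.Core
import Pool.Agent.H81.LO.Kill
import Pool.Agent.H4.NS.Fin

set_option autoImplicit false

/-!
The end of the proof: if every `λ_w = L_w²` (`w` an involution) carries the odd inner mappings
inverted by `z_x` to such mappings, then all `λ_w` are trivial; and the conclusion.
-/

namespace ALoop

open Equiv

variable {Q : Type*} {G : Subgroup (Perm Q)} {L : Q → Perm Q} {J : Perm Q} {e : Q}

namespace AL

theorem lam_mem (h : AL G L J e) {w : Q} (hJw : J w = w) : L w * L w ∈ Inn G e := by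
  refine ⟨G.mul_mem (h.memL w) (h.memL w), ?_⟩
  change L w (L w e) = e
  rw [h.Le]
  have := h.LJ w
  rwa [hJw] at this

theorem lam_conj (h : AL G L J e) {w : Q} {g : Perm Q} (hg : g ∈ Inn G e) :
    g * (L w * L w) * g⁻¹ = L (g w) * L (g w) := by
  rw [← h.equi g hg.1 hg.2 w]; group

theorem lam_one_of [Finite Q] (h : AL G L J e) (hcardQ : 2 ∣ Nat.card Q) {x : Q}
    (hJx : J x = x) (hxe : x ≠ e)
    (hB : ∀ w, J w = w → w ≠ e → ∀ b ∈ Inn G e, Odd (orderOf b) →
      (D L J x * J) * b * (D L J x * J) = b⁻¹ →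
      (D L J x * J) * ((L w * L w)⁻¹ * b * (L w * L w)) * (D L J x * J) =
        ((L w * L w)⁻¹ * b * (L w * L w))⁻¹) :
    ∀ w, J w = w → w ≠ e → L w * L w = 1 := by
  classical
  have hzE : D L J x * J ∈ EE L J e := ⟨x, hJx, hxe, rfl⟩
  have hzI := h.EE_Inn hzE
  have hzz := h.EE_sq hzE
  have hz1 : D L J x * J ≠ 1 := h.Z_ne (h.zx_mem hJx hxe)
  set z := D L J x * J with hz
  set S : Set (Inn G e) := {t | ∃ w, J w = w ∧ w ≠ e ∧ (t : Perm Q) = L w * L w} with hS
  have hSc : ∀ g : Inn G e, ∀ t ∈ S, g * t * g⁻¹ ∈ S := by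
    rintro ⟨g, hg⟩ ⟨t, ht⟩ ⟨w, hJw, hwe, htw⟩
    have h1 := h.inv_map hJw hwe hg
    refine ⟨g w, h1.1, h1.2, ?_⟩
    have htw' : t = L w * L w := htw
    change g * t * g⁻¹ = _
    rw [htw', h.lam_conj hg]
  have hN : (Subgroup.closure S).Normal := by
    refine ⟨fun n hn g => ?_⟩
    have h5 : Subgroup.closure S ≤ (Subgroup.closure S).comap (MulAut.conj g).toMonoidHom := by
      rw [Subgroup.closure_le]
      intro t ht
      exact Subgroup.subset_closure (hSc g t ht)
    exact h5 hn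
  let z' : Inn G e := ⟨z, hzI⟩
  have hcoe : ∀ b : Inn G e, orderOf (b : Perm Q) = orderOf b := fun b =>
    Subgroup.orderOf_coe b
  let P : Inn G e → Prop := fun n => ∀ b : Inn G e, Odd (orderOf b) → z' * b * z' = b⁻¹ →
    z' * (n⁻¹ * b * n) * z' = (n⁻¹ * b * n)⁻¹
  have hordc : ∀ n b : Inn G e, orderOf (n⁻¹ * b * n) = orderOf b := by
    intro n b
    have h2 := (MulAut.conj n⁻¹).orderOf_eq b
    simpa using h2
  have hPmul : ∀ m n, P m → P n → P (m * n) := by
    intro m n hm hn b hb hzb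
    have h2 := hn (m⁻¹ * b * m) (by rw [hordc]; exact hb) (hm b hb hzb)
    have h3 : (m * n)⁻¹ * b * (m * n) = n⁻¹ * (m⁻¹ * b * m) * n := by group
    rw [h3]; exact h2
  have hPone : P 1 := by
    intro b hb hzb
    simpa using hzb
  have hPpow : ∀ m, P m → ∀ k : ℕ, P (m ^ k) := by
    intro m hm k
    induction k with
    | zero => simpa using hPone
    | succ k ih => rw [pow_succ]; exact hPmul _ _ ih hm
  have hPall : ∀ n ∈ Subgroup.closure S, P n := by
    intro n hn
    induction hn using Subgroup.closure_induction with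
    | mem t ht =>
      obtain ⟨w, hJw, hwe, htw⟩ := ht
      intro b hb hzb
      have h2 := hB w hJw hwe (b : Perm Q) b.2 (by rw [hcoe]; exact hb)
        (congrArg Subtype.val hzb)
      rw [← htw] at h2
      exact Subtype.ext h2
    | one => exact hPone
    | mul m n _ _ hm hn => exact hPmul m n hm hn
    | inv m _ hm =>
      have h3 : m⁻¹ = m ^ (orderOf m - 1) := by
        have h4 : 0 < orderOf m := orderOf_pos m
        rw [inv_eq_iff_mul_eq_one, ← pow_succ', Nat.sub_add_cancel h4, pow_orderOf_eq_one]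
      rw [h3]
      exact hPpow m hm _
  have hbot : Subgroup.closure S = ⊥ := by
    refine Pool.Agent.H61.FT.core (fun A hA hs => h.no_solvable hcardQ A hA hs)
      (fun A B hA hB hc => h.commuting_normal' hcardQ A B hA hB hc) _ hN (z := z')
      (Subtype.ext hzz) ?_ (fun n hn b hb hzb => hPall n hn b hb hzb)
    intro h1
    exact hz1 (congrArg Subtype.val h1)
  intro w hJw hwe
  have h1 : (⟨L w * L w, h.lam_mem hJw⟩ : Inn G e) ∈ Subgroup.closure S :=
    Subgroup.subset_closure ⟨w, hJw, hwe, rfl⟩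
  rw [hbot, Subgroup.mem_bot] at h1
  exact congrArg Subtype.val h1

/-- the end, from (5) -/
theorem assoc_of [Finite Q] (h : AL G L J e) (hcardQ : 2 ∣ Nat.card Q)
    (hB : ∀ x w, J x = x → x ≠ e → J w = w → w ≠ e → ∀ b ∈ Inn G e, Odd (orderOf b) →
      (D L J x * J) * b * (D L J x * J) = b⁻¹ →
      (D L J x * J) * ((L w * L w)⁻¹ * b * (L w * L w)) * (D L J x * J) =
        ((L w * L w)⁻¹ * b * (L w * L w))⁻¹)
    (h5 : ∀ x, J x = x → x ≠ e → (∀ w, J w = w → w ≠ e → L w * L w = 1) →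
      ∀ b ∈ Inn G e, Odd (orderOf b) → (D L J x * J) * b * (D L J x * J) = b⁻¹ →
      ∀ y, J y = y → y ≠ e → Commute ((L x)⁻¹ * b * L x * b) (L y)) : Assoc L := by
  by_contra hna
  obtain ⟨x, hxe, hJx⟩ := h.exists_inv_pt hcardQ
  have hlam := h.lam_one_of hcardQ hJx hxe (fun w hJw hwe => hB x w hJx hxe hJw hwe)
  obtain ⟨b, hb, hb1, hbo, hzb⟩ := h.exists_odd hcardQ hJx hxe
  have h1 := h.concl_L hna hJx hxe (c := (L x)⁻¹ * b * L x * b)
    (G.mul_mem (G.mul_mem (G.mul_mem (G.inv_mem (h.memL x)) hb.1) (h.memL x)) hb.1)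
    (h5 x hJx hxe hlam b hb hbo hzb)
  have h2 : b * L x * b = L x := by
    have h3 : L x * ((L x)⁻¹ * b * L x * b) = L x := by rw [h1, mul_one]
    calc b * L x * b = L x * ((L x)⁻¹ * b * L x * b) := by group
      _ = L x := h3
  have h4 := h.equi b hb.1 hb.2 x
  have h5' : L (b x) = L x * (b⁻¹ * b⁻¹) := by
    rw [← h4]
    have h6 : b * L x = L x * b⁻¹ := by
      rw [eq_mul_inv_iff_mul_eq]; exact h2
    rw [h6, mul_assoc]
  have hbe : b⁻¹ e = e := by
    rw [Perm.inv_eq_iff_eq]; exact (show b e = e from hb.2).symm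
  have h7 : b x = x := by
    have h8 := congrArg (fun f : Perm Q => f e) h5'
    simp only [Perm.mul_apply, hbe, h.Le] at h8
    exact h8
  rw [h7] at h5'
  have h9 : b⁻¹ * b⁻¹ = 1 := by
    have h10 : L x * 1 = L x * (b⁻¹ * b⁻¹) := by rw [mul_one]; exact h5'
    exact (mul_left_cancel h10).symm
  apply hb1
  have h11 : b * b = 1 := by
    have : b * b = (b⁻¹ * b⁻¹)⁻¹ := by rw [mul_inv_rev, inv_inv]
    rw [this, h9, inv_one]
  obtain ⟨k, hk⟩ := hbo
  have h12 := pow_orderOf_eq_one b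
  rw [hk, pow_succ, pow_mul, pow_two, h11, one_pow, one_mul] at h12
  exact h12

end AL

end ALoop
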