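import Pool.Agent.H61.FT.Asm
import Pool.Agent.H81.LO.AB
import Pool.Agent.H81.LO.LamOne

set_option autoImplicit false

/-!
A finite simple automorphic loop of even order, not of exponent two, is associative.
-/

namespace ALoop

open Equiv

variable {Q : Type*} {G : Subgroup (Perm Q)} {L : Q → Perm Q} {J : Perm Q} {e : Q}

namespace AL

theorem DJ_conj (h : AL G L J e) {x : Q} (hJx : J x = x) {b : Perm Q} (hb : b ∈ Inn G e) :
    (D L J x * J) * b * (D L J x * J) = D L J x * b * D L J x := by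
  have hJJ := h.JJ1
  have hbJ := h.comJ b hb.1 hb.2
  have hDJ := h.Dx_J hJx
  calc (D L J x * J) * b * (D L J x * J) = (D L J x * J) * b * (J * D L J x) := by rw [hDJ]
    _ = D L J x * J * (b * J) * D L J x := by group
    _ = D L J x * (J * J) * b * D L J x := by rw [hbJ]; group
    _ = D L J x * b * D L J x := by rw [hJJ, mul_one]

theorem assoc_even [Finite Q] (h : AL G L J e) (hcardQ : 2 ∣ Nat.card Q) : Assoc L := by
  obtain ⟨x, hxe, hJx⟩ := h.exists_inv_pt hcardQ
  refine h.assoc_of_lam hcardQ (h.lam_one_of hcardQ hJx hxe ?_)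
  intro w hJw _ b hb hbo hzb
  rw [h.DJ_conj hJx hb] at hzb
  obtain ⟨o1, o2, o3⟩ := (h.stepB hJx ⟨hb, hbo, hzb⟩ hJw).2
  rw [h.DJ_conj hJx o1]
  exact o3

end AL

end ALoop
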